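import Pool.Agent.Helper35_WH.Stmt2

/-!
# Orbits of corners at a vertex: lemmas for P3, P4, QFOREST
-/

namespace Pool.Agent.Helper35_WH

open FreeGroup

namespace GermAux

theorem orb_refl {K : Type} (f g : K → K) (k : K) : Orb f g k k := fun _ _ _ h => h

theorem orb_f {K : Type} {f g : K → K} {k k' : K} (h : Orb f g k k') : Orb f g k (f k') :=
  fun P h1 h2 h3 => h1 _ (h P h1 h2 h3)

theorem orb_g {K : Type} {f g : K → K} {k k' : K} (h : Orb f g k k') : Orb f g k (g k') :=
  fun P h1 h2 h3 => h2 _ (h P h1 h2 h3)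

theorem orb_trans {K : Type} {f g : K → K} {a b c : K} (h : Orb f g a b) (h' : Orb f g b c) :
    Orb f g a c := fun P h1 h2 h3 => h' P h1 h2 (h P h1 h2 h3)

theorem orb_symm {K : Type} {f g : K → K} (hf : ∀ k, f (f k) = k) (hg : ∀ k, g (g k) = k)
    {a b : K} (h : Orb f g a b) : Orb f g b a := by
  apply h (fun x => Orb f g x a)
  · intro x hx
    have : Orb f g (f x) x := by
      have := orb_f (orb_refl f g (f x))
      rwa [hf] at this
    exact orb_trans this hx
  · intro x hx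
    have : Orb f g (g x) x := by
      have := orb_g (orb_refl f g (g x))
      rwa [hg] at this
    exact orb_trans this hx
  · exact orb_refl _ _ _

variable {n : ℕ} {X Y : List (Lt n)} (m : Model n X Y)

/-- a germ of a corner in the orbit of `κ` -/
def OG (κ : m.C.Cor) (g : m.C.Dir) : Prop :=
  ∃ κ' : m.C.Cor, Orb m.quad.nu m.quad.eta κ κ' ∧ (g = m.C.hgerm κ' ∨ g = m.C.vgerm κ')

/-- special directed edges -/
def SpD (g : m.C.Dir) : Prop := (∀ e, g.1 = .inl e → m.Sp₁ e) ∧ (∀ e, g.1 = .inr e → m.Sp₂ e)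

theorem spD_of_mem {g : m.C.Dir} (h : g ∈ m.path) : SpD m g := by
  unfold Model.path at h
  rw [List.mem_append, List.mem_map, List.mem_map] at h
  constructor
  · rintro e he
    rcases h with ⟨x, hx, rfl⟩ | ⟨x, hx, rfl⟩
    · left
      refine ⟨x.2, ?_⟩
      have : x.1 = e := Sum.inl_injective he
      rw [← this]
      exact hx
    · exact absurd he (by simp)
  · rintro e he
    rcases h with ⟨x, hx, rfl⟩ | ⟨x, hx, rfl⟩
    · exact absurd he (by simp)
    · left
      refine ⟨x.2, ?_⟩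
      have : x.1 = e := Sum.inr_injective he
      rw [← this]
      exact hx

theorem spD_inv {g : m.C.Dir} : SpD m (inv g) ↔ SpD m g := Iff.rfl

theorem turn_sp {g g' : m.C.Dir} (h : m.Turn g g') : SpD m g ∧ SpD m g' := by
  have h1 : ∀ x ∈ [inv g, g'], x ∈ m.path := by
    intro x hx
    have := h.subset hx
    rw [List.mem_append] at this
    exact this.elim id id
  exact ⟨(spD_inv m).1 (spD_of_mem m (h1 _ (by simp))), spD_of_mem m (h1 _ (by simp))⟩

/-- The conclusion of the removal of one vertical germ of an orbit: all other germs at the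
vertex are germs of corners of the orbit. -/
theorem all_germs (hq : QuadBasicStatement) (h7 : TwoConnStatement) (hm : Tame m)
    (hX : IsCyclicallyReduced X) (hY : IsCyclicallyReduced Y) (hX0 : X ≠ []) (hY0 : Y ≠ [])
    (hT : Tight Y) (κ : m.C.Cor)
    (hh : ∀ κ' : m.C.Cor, Orb m.quad.nu m.quad.eta κ κ' → ¬ m.Sp₁ (m.C.hside (κ'.1, κ'.2.2)))
    (hv : ∀ κ' : m.C.Cor, Orb m.quad.nu m.quad.eta κ κ' → m.C.vgerm κ' ≠ m.C.vgerm κ →
      ¬ m.Sp₂ (m.C.vside (κ'.1, κ'.2.1))) :
    ∀ g, m.C.org g = m.C.vert κ → g ≠ m.C.vgerm κ → OG m κ g ∧ ¬ SpD m g := by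
  classical
  obtain ⟨-, -, -, -, q5, q6, q7, -, -, -, -, -⟩ := hq n X Y m
  have hsp : ∀ g, g ≠ m.C.vgerm κ → OG m κ g → ¬ SpD m g := by
    rintro g hg ⟨κ', h1, h2⟩ h3
    rcases h2 with rfl | rfl
    · exact hh κ' h1 (h3.1 _ rfl)
    · exact hv κ' h1 hg (h3.2 _ rfl)
  have key := h7 n X Y m hm hX hY hX0 hY0 hT (m.C.vert κ) (m.C.vside (κ.1, κ.2.1), !κ.2.2)
    (fun g => decide (OG m κ g)) (q7 κ) (fun κ₁ h1 h2 => ?_) (fun g g' h1 h2 h3 h4 h5 => ?_)
  · intro g hg hne
    have h1 := key g (m.C.hgerm κ) hg rfl hne (by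
      intro h
      have := congrArg Prod.fst h
      simp [Cx.hgerm] at this)
    have h2 : OG m κ (m.C.hgerm κ) := ⟨κ, orb_refl _ _ _, Or.inl rfl⟩
    simp only [h2, decide_true, decide_eq_true_eq] at h1
    exact ⟨h1, hsp g hne h1⟩
  · have e : OG m κ (m.C.hgerm κ₁) ↔ OG m κ (m.C.vgerm κ₁) := by
      constructor
      · rintro ⟨κ', h3, h4⟩
        have h5 : m.C.hgerm κ₁ = m.C.hgerm κ' := by
          rcases h4 with h4 | h4
          · exact h4
          · have := congrArg Prod.fst h4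
            simp [Cx.hgerm, Cx.vgerm] at this
        rcases q5 κ' κ₁ h5.symm (hh κ' h3) with rfl | rfl
        · exact ⟨κ₁, h3, Or.inr rfl⟩
        · exact ⟨_, orb_f h3, Or.inr rfl⟩
      · rintro ⟨κ', h3, h4⟩
        have h5 : m.C.vgerm κ₁ = m.C.vgerm κ' := by
          rcases h4 with h4 | h4
          · have := congrArg Prod.fst h4
            simp [Cx.hgerm, Cx.vgerm] at this
          · exact h4
        rcases q6 κ' κ₁ h5.symm (hv κ' h3 (by rw [← h5]; exact h2)) with rfl | rfl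
        · exact ⟨κ₁, h3, Or.inl rfl⟩
        · exact ⟨_, orb_g h3, Or.inl rfl⟩
    simp only [e]
  · obtain ⟨s1, s2⟩ := turn_sp m h1
    have e1 : ¬ OG m κ g := fun h => hsp g h4 h s1
    have e2 : ¬ OG m κ g' := fun h => hsp g' h5 h s2
    simp only [e1, e2]

end GermAux

end Pool.Agent.Helper35_WH
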