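import Pool.Agent.Helper20_WH.Germ

/-!
# An orbit at a vertex is not bounded twice by the same vertical germ (module P3)
-/

namespace Pool.Agent.Helper35_WH

open FreeGroup GermAux

namespace P3Aux

theorem isPath_append {V E : Type} {s t : E → V} {L1 L2 : List (E × Bool)} :
    ∀ {u w : V}, IsPath s t u (L1 ++ L2) w → ∃ v, IsPath s t u L1 v ∧ IsPath s t v L2 w := by
  induction L1 with
  | nil => intro u w h; exact ⟨u, rfl, h⟩
  | cons x L1 ih =>
    intro u w h
    obtain ⟨e, b⟩ := x
    obtain ⟨h1, h2⟩ := h
    obtain ⟨v, h3, h4⟩ := ih h2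
    exact ⟨v, ⟨h1, h3⟩, h4⟩

theorem not_reduced {α : Type} {L1 L2 : List (α × Bool)} {a : α} {b : Bool}
    (h : FreeGroup.IsReduced (L1 ++ (a, !b) :: (a, b) :: L2)) : False := by
  have h1 : FreeGroup.IsReduced [(a, !b), (a, b)] := by
    unfold FreeGroup.IsReduced at h ⊢
    have h2 := List.IsChain.right_of_append h
    rw [List.isChain_cons_cons] at h2
    rw [List.isChain_pair]
    exact h2.1
  unfold FreeGroup.IsReduced at h1
  rw [List.isChain_pair] at h1
  have := h1 rfl
  cases b <;> simp at this

theorem card_le_two {α β : Type} [Fintype α] (F : α → β) (hF : Function.Injective F) (a b : β)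
    (h : ∀ y, F y = a ∨ F y = b) : Fintype.card α ≤ 2 := by
  classical
  rw [← Finset.card_univ]
  refine (Finset.card_le_card_of_injOn (t := ({a, b} : Finset β)) F (fun y _ => ?_)
    (hF.injOn)).trans Finset.card_le_two
  rw [Finset.mem_coe, Finset.mem_insert, Finset.mem_singleton]
  exact h y

variable {n : ℕ} {X Y : List (Lt n)} (m : Model n X Y)

/-- If the edge of a vertical germ is on the closed path, then there is another special germ at its
origin. -/
theorem off_path (hX0 : X ≠ []) (hY : FreeGroup.IsReduced Y) {e : m.C.B} {b : Bool}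
    (H : ∀ g, m.C.org g = m.C.org (.inr e, b) → g ≠ (.inr e, b) → ¬ SpD m g) :
    ∀ b', (e, b') ∉ m.vp := by
  intro b' hmem
  have hread := m.vp_read
  obtain ⟨L1, L2, hL⟩ := List.append_of_mem hmem
  have hp0 : m.hp ≠ [] := by
    intro h
    apply hX0
    rw [← m.hp_read, h]
    rfl
  have hpath := m.vp_path
  rw [hL] at hpath
  obtain ⟨v, hv1, hv2⟩ := isPath_append hpath
  by_cases hb : b' = b
  · subst hb
    have hv : v = m.C.org (.inr e, b') := hv2.1
    rcases List.eq_nil_or_concat L1 with h1 | ⟨L1', d, h1⟩
    · subst h1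
      have hw1 : m.w1 = v := hv1
      rcases List.eq_nil_or_concat m.hp with h2 | ⟨hp', d, h2⟩
      · exact hp0 h2
      · have h3 := m.hp_path
        rw [h2, List.concat_eq_append] at h3
        obtain ⟨v', h4, h5⟩ := isPath_append h3
        have h6 : (if d.2 then m.C.t₁ d.1 else m.C.s₁ d.1) = m.w1 := h5.2
        apply H (.inl d.1, !d.2)
        · rw [← hv, ← hw1, ← h6]
          show (if (!d.2) = true then m.C.s₁ d.1 else m.C.t₁ d.1) = _
          cases d.2 <;> rfl
        · intro h
          have := congrArg Prod.fst h
          simp at this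
        · apply (spD_inv m (g := (.inl d.1, !d.2))).1
          apply spD_of_mem
          unfold Model.path
          rw [List.mem_append]
          left
          rw [List.mem_map]
          refine ⟨d, by rw [h2]; simp, ?_⟩
          simp [inv]
    · subst h1
      rw [List.concat_eq_append] at hv1
      obtain ⟨v', h4, h5⟩ := isPath_append hv1
      have h6 : (if d.2 then m.C.t₂ d.1 else m.C.s₂ d.1) = v := h5.2
      by_cases h7 : ((.inr d.1, !d.2) : m.C.Dir) = (.inr e, b')
      · have h8 : d.1 = e := Sum.inr_injective (congrArg Prod.fst h7)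
        have h9 : (!d.2) = b' := congrArg Prod.snd h7
        have h10 : d.2 = !b' := by rw [← h9]; simp
        rw [hL, List.concat_eq_append] at hread
        unfold readW at hread
        simp only [List.map_append, List.map_cons, List.append_assoc,
          List.cons_append, List.nil_append, h8, h10] at hread
        rw [← hread] at hY
        exact not_reduced hY
      · apply H (.inr d.1, !d.2) _ h7
        · apply (spD_inv m (g := (.inr d.1, !d.2))).1
          apply spD_of_mem
          unfold Model.path
          rw [List.mem_append]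
          right
          rw [List.mem_map]
          refine ⟨d, by rw [hL]; simp, ?_⟩
          simp [inv]
        · rw [← hv, ← h6]
          show (if (!d.2) = true then m.C.s₂ d.1 else m.C.t₂ d.1) = _
          cases d.2 <;> rfl
  · have hb' : b' = !b := by revert hb; cases b <;> cases b' <;> simp
    subst hb'
    have hv3 := hv2.2
    have hw : (if (!b) = true then m.C.t₂ e else m.C.s₂ e) = m.C.org (.inr e, b) := by
      show _ = (if b = true then m.C.s₂ e else m.C.t₂ e)
      cases b <;> rfl
    rw [hw] at hv3
    cases L2 with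
    | nil =>
      have h1 : m.C.org (.inr e, b) = m.w0 := hv3
      rcases hhp : m.hp with _ | ⟨d, hp'⟩
      · exact hp0 hhp
      · have h3 := m.hp_path
        rw [hhp] at h3
        have h4 : m.w0 = (if d.2 then m.C.s₁ d.1 else m.C.t₁ d.1) := h3.1
        apply H (.inl d.1, d.2)
        · rw [h1, h4]
          rfl
        · intro h
          have := congrArg Prod.fst h
          simp at this
        · apply spD_of_mem
          unfold Model.path
          rw [List.mem_append]
          left
          rw [List.mem_map]
          exact ⟨d, by rw [hhp]; simp, rfl⟩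
    | cons d L2' =>
      have h4 : m.C.org (.inr e, b) = (if d.2 then m.C.s₂ d.1 else m.C.t₂ d.1) := hv3.1
      by_cases h7 : ((.inr d.1, d.2) : m.C.Dir) = (.inr e, b)
      · have h8 : d.1 = e := Sum.inr_injective (congrArg Prod.fst h7)
        have h9 : d.2 = b := congrArg Prod.snd h7
        rw [hL] at hread
        unfold readW at hread
        simp only [List.map_append, List.map_cons, h8, h9] at hread
        rw [← hread] at hY
        exact not_reduced hY
      · apply H (.inr d.1, d.2) _ h7
        · apply spD_of_mem
          unfold Model.path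
          rw [List.mem_append]
          right
          rw [List.mem_map]
          exact ⟨d, by rw [hL]; simp, rfl⟩
        · rw [h4]
          rfl

end P3Aux

open P3Aux

theorem p3 (hq : QuadBasicStatement) (h7 : TwoConnStatement) (hr : RimDataStatement) :
    P3Statement := by
  classical
  intro n X Y m hm hX hY hX0 hY0 hT κ κ' horb hκ hκ' hgerm
  by_contra hne
  obtain ⟨q1, q2, -, -, q5, -, q7, -, -, -, -, -⟩ := hq n X Y m
  obtain ⟨D⟩ := hr m.quad
  -- the two boundary flags of the orbit
  have B1 : m.quad.Bdry (κ, true) := by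
    show (if true = true then m.quad.eta κ else m.quad.nu κ) = κ
    rw [if_pos rfl]
    exact hκ
  have B2 : m.quad.Bdry (κ', true) := by
    show (if true = true then m.quad.eta κ' else m.quad.nu κ') = κ'
    rw [if_pos rfl]
    exact hκ'
  set x := D.e.symm ⟨(κ, true), B1⟩ with hx
  set x' := D.e.symm ⟨(κ', true), B2⟩ with hx'
  have ex : (D.e x).1 = (κ, true) := by rw [hx, Equiv.apply_symm_apply]
  have ex' : (D.e x').1 = (κ', true) := by rw [hx', Equiv.apply_symm_apply]
  have hσ : x' = D.R.σ x := by
    rcases D.σ_uni x x' (by rw [ex, ex']; exact horb) with h | h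
    · exfalso
      apply hne
      rw [h, ex] at ex'
      exact congrArg Prod.fst ex'
    · exact h
  have flag : ∀ (k : m.quad.K) (b : Bool), Orb m.quad.nu m.quad.eta κ k → m.quad.Bdry (k, b) →
      (k, b) = (κ, true) ∨ (k, b) = (κ', true) := by
    intro k b h1 h2
    set z := D.e.symm ⟨(k, b), h2⟩ with hz
    have ez : (D.e z).1 = (k, b) := by rw [hz, Equiv.apply_symm_apply]
    rcases D.σ_uni x z (by rw [ex, ez]; exact h1) with h | h
    · left
      rw [← ez, h, ex]
    · right
      rw [← ez, h, ← hσ, ex']
  have hnu : ∀ k, Orb m.quad.nu m.quad.eta κ k → m.quad.nu k ≠ k := by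
    intro k h1 h2
    have : m.quad.Bdry (k, false) := by
      show (if false = true then m.quad.eta k else m.quad.nu k) = k
      rw [if_neg (by simp)]
      exact h2
    rcases flag k false h1 this with h | h
    · have := congrArg Prod.snd h
      simp at this
    · have := congrArg Prod.snd h
      simp at this
  have heta : ∀ k, Orb m.quad.nu m.quad.eta κ k → m.quad.eta k = k → k = κ ∨ k = κ' := by
    intro k h1 h2
    have : m.quad.Bdry (k, true) := by
      show (if true = true then m.quad.eta k else m.quad.nu k) = k
      rw [if_pos rfl]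
      exact h2
    rcases flag k true h1 this with h | h
    · left; exact congrArg Prod.fst h
    · right; exact congrArg Prod.fst h
  have hh : ∀ k : m.C.Cor, Orb m.quad.nu m.quad.eta κ k →
      ¬ m.Sp₁ (m.C.hside (k.1, k.2.2)) := fun k h h2 => hnu k h ((q1 k).2 h2)
  have hv : ∀ k : m.C.Cor, Orb m.quad.nu m.quad.eta κ k → m.C.vgerm k ≠ m.C.vgerm κ →
      ¬ m.Sp₂ (m.C.vside (k.1, k.2.1)) := by
    intro k h1 h2 h3
    rcases heta k h1 ((q2 k).2 h3) with h | h
    · exact h2 (by rw [h])
    · exact h2 (by rw [h, ← hgerm])
  have key := all_germs m hq h7 hm hX hY hX0 hY0 hT κ hh hv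
  -- the edge of the germ is special but not on the path
  have hoff := off_path m (e := m.C.vside (κ.1, κ.2.1)) (b := !κ.2.2) hX0 hY.isReduced
    (fun g h1 h2 => (key g (h1.trans (q7 κ)) h2).2)
  have hsp : m.Sp₂ (m.C.vside (κ.1, κ.2.1)) := (q2 κ).1 hκ
  have hcard2 : Fintype.card {y : m.C.S × Bool // m.C.vside y = m.C.vside (κ.1, κ.2.1)} ≠ 2 := by
    rcases hsp with ⟨b, hb⟩ | h
    · exact absurd hb (hoff b)
    · exact h
  have hcard3 := hm.f₂ _ hoff
  -- but at most two squares
  have hle : Fintype.card {y : m.C.S × Bool // m.C.vside y = m.C.vside (κ.1, κ.2.1)} ≤ 2 := by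
    refine card_le_two (fun y => ((y.1.1, y.1.2, κ.2.2) : m.C.Cor)) ?_ κ κ' ?_
    · rintro ⟨⟨y1, y2⟩, hy⟩ ⟨⟨z1, z2⟩, hz⟩ h
      simp only [Prod.mk.injEq, and_true] at h
      apply Subtype.ext
      exact Prod.ext h.1 h.2
    · rintro ⟨y, hy⟩
      set k : m.C.Cor := (y.1, y.2, κ.2.2) with hk
      have e1 : m.C.vgerm k = m.C.vgerm κ := by
        show ((.inr (m.C.vside (y.1, y.2)), !κ.2.2) : m.C.Dir) = (.inr (m.C.vside (κ.1, κ.2.1)), !κ.2.2)
        rw [Prod.mk.eta, hy]
      have e2 : m.C.vert k = m.C.vert κ := by rw [← q7, ← q7, e1]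
      obtain ⟨⟨k', h2, h3⟩, -⟩ := key (m.C.hgerm k) e2 (by
        intro h
        have := congrArg Prod.fst h
        simp [Cx.hgerm, Cx.vgerm] at this)
      have h4 : m.C.hgerm k' = m.C.hgerm k := by
        rcases h3 with h3 | h3
        · exact h3.symm
        · have := congrArg Prod.fst h3
          simp [Cx.hgerm, Cx.vgerm] at this
      have h5 : Orb m.quad.nu m.quad.eta κ k := by
        rcases q5 k' k h4 (hh k' h2) with h | h
        · rw [h]; exact h2
        · rw [h]; exact orb_f h2
      have h6 : m.quad.eta k = k := by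
        apply (q2 k).2
        show m.Sp₂ (m.C.vside (y.1, y.2))
        rw [Prod.mk.eta, hy]
        exact hsp
      exact heta k h5 h6
  omega

end Pool.Agent.Helper35_WH
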