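import Pool.Agent.Helper20_WH.Germ

/-!
# A closed orbit at a vertex contains all corners at this vertex (module P4)
-/

namespace Pool.Agent.Helper35_WH

open FreeGroup GermAux

theorem p4 (hq : QuadBasicStatement) (h7 : TwoConnStatement) : P4Statement := by
  intro n X Y m hm hX hY hX0 hY0 hT κ hκ
  obtain ⟨q1, q2, -, -, q5, -, -, -, -, -, -, -⟩ := hq n X Y m
  have hh : ∀ κ' : m.C.Cor, Orb m.quad.nu m.quad.eta κ κ' →
      ¬ m.Sp₁ (m.C.hside (κ'.1, κ'.2.2)) := fun κ' h h2 => (hκ κ' h).1 ((q1 κ').2 h2)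
  have hv : ∀ κ' : m.C.Cor, Orb m.quad.nu m.quad.eta κ κ' →
      ¬ m.Sp₂ (m.C.vside (κ'.1, κ'.2.1)) := fun κ' h h2 => (hκ κ' h).2 ((q2 κ').2 h2)
  have key := all_germs m hq h7 hm hX hY hX0 hY0 hT κ hh (fun κ' h _ => hv κ' h)
  refine ⟨fun κ' h => ?_, fun e b he h => ?_, fun e b he h => ?_⟩
  · obtain ⟨⟨κ'', h1, h2⟩, -⟩ := key (m.C.hgerm κ') h (by
      intro h
      have := congrArg Prod.fst h
      simp [Cx.hgerm, Cx.vgerm] at this)
    have h3 : m.C.hgerm κ'' = m.C.hgerm κ' := by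
      rcases h2 with h2 | h2
      · exact h2.symm
      · have := congrArg Prod.fst h2
        simp [Cx.hgerm, Cx.vgerm] at this
    rcases q5 κ'' κ' h3 (hh κ'' h1) with rfl | rfl
    · exact h1
    · exact orb_f h1
  · have := key (.inl e, b) h (by
      intro h
      have := congrArg Prod.fst h
      simp [Cx.vgerm] at this)
    apply this.2
    refine ⟨fun e' he' => ?_, fun e' he' => ?_⟩
    · rw [← Sum.inl_injective he']
      exact he
    · simp at he'
  · by_cases h2 : ((.inr e, b) : m.C.Dir) = m.C.vgerm κ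
    · have h3 : e = m.C.vside (κ.1, κ.2.1) := Sum.inr_injective (congrArg Prod.fst h2)
      exact hv κ (orb_refl _ _ _) (h3 ▸ he)
    · apply (key (.inr e, b) h h2).2
      refine ⟨fun e' he' => ?_, fun e' he' => ?_⟩
      · simp at he'
      · rw [← Sum.inr_injective he']
        exact he

end Pool.Agent.Helper35_WH
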