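import Pool.Agent.Helper35_WH.Stmt2

/-!
# Basic properties of the square tiled surface of a model (module QBASIC)
-/

namespace Pool.Agent.Helper35_WH

open FreeGroup

namespace QBasicAux

theorem exists_mate {S E : Type} (f : S → E) (x : S) [Fintype {y // f y = f x}]
    (h : Fintype.card {y // f y = f x} = 2) :
    ∃ y, y ≠ x ∧ ∀ z, f z = f x ↔ z = x ∨ z = y := by
  classical
  rw [← Finset.card_univ, Finset.card_eq_two] at h
  obtain ⟨a, b, hab, huniv⟩ := h
  have key : ∀ z : {y // f y = f x}, z = a ∨ z = b := fun z => by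
    have := Finset.mem_univ z
    rw [huniv] at this
    simpa using this
  have aux : ∀ c d : {y // f y = f x}, c ≠ d → (∀ z, z = c ∨ z = d) → (⟨x, rfl⟩ : {y // f y = f x}) = c →
      ∃ y, y ≠ x ∧ ∀ z, f z = f x ↔ z = x ∨ z = y := by
    rintro c d hcd hall hx
    refine ⟨d.1, ?_, fun z => ⟨fun hz => ?_, ?_⟩⟩
    · rintro hd
      apply hcd
      rw [← hx]
      exact Subtype.ext hd.symm
    · rcases hall ⟨z, hz⟩ with h1 | h1
      · left
        rw [← hx] at h1
        exact congrArg Subtype.val h1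
      · right
        exact congrArg Subtype.val h1
    · rintro (rfl | rfl)
      · rfl
      · exact d.2
  rcases key ⟨x, rfl⟩ with hx | hx
  · exact aux a b hab key hx
  · exact aux b a hab.symm (fun z => (key z).symm) hx

theorem mate_eq_iff {S E : Type} (f : S → E) (P : E → Prop) (x : S) [Fintype {y // f y = f x}]
    (h : ¬ P (f x) → Fintype.card {y // f y = f x} = 2) : mate f P x = x ↔ P (f x) := by
  constructor
  · intro h1
    by_contra h2
    exact (mate_spec f P x ⟨h2, exists_mate f x (h h2)⟩).1 h1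
  · intro h1
    exact mate_of_not f P x fun h2 => h2.1 h1

theorem eq_or_eq_mate {S E : Type} (f : S → E) (P : E → Prop) (x : S) [Fintype {y // f y = f x}]
    (h : ¬ P (f x) → Fintype.card {y // f y = f x} = 2) (hP : ¬ P (f x)) {z : S}
    (hz : f z = f x) : z = x ∨ z = mate f P x :=
  ((mate_spec f P x ⟨hP, exists_mate f x (h hP)⟩).2 z).1 hz

variable {n : ℕ} {X Y : List (Lt n)} (m : Model n X Y)

theorem card_of_not_sp₁ (e : m.C.A) (h : ¬ m.Sp₁ e) :
    Fintype.card {x : m.C.S × Bool // m.C.hside x = e} = 2 := by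
  by_contra h2
  exact h (Or.inr h2)

theorem card_of_not_sp₂ (e : m.C.B) (h : ¬ m.Sp₂ e) :
    Fintype.card {x : m.C.S × Bool // m.C.vside x = e} = 2 := by
  by_contra h2
  exact h (Or.inr h2)

theorem q1 (κ : m.C.Cor) : m.quad.nu κ = κ ↔ m.Sp₁ (m.C.hside (κ.1, κ.2.2)) := by
  rw [← mate_eq_iff m.C.hside m.Sp₁ (κ.1, κ.2.2) (card_of_not_sp₁ m _)]
  constructor
  · intro h
    have h1 : (mate m.C.hside m.Sp₁ (κ.1, κ.2.2)).1 = κ.1 := congrArg (fun k : m.C.Cor => k.1) h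
    have h2 : (mate m.C.hside m.Sp₁ (κ.1, κ.2.2)).2 = κ.2.2 :=
      congrArg (fun k : m.C.Cor => k.2.2) h
    exact Prod.ext h1 h2
  · intro h
    show ((mate m.C.hside m.Sp₁ (κ.1, κ.2.2)).1, κ.2.1, (mate m.C.hside m.Sp₁ (κ.1, κ.2.2)).2) = κ
    rw [h]

theorem q2 (κ : m.C.Cor) : m.quad.eta κ = κ ↔ m.Sp₂ (m.C.vside (κ.1, κ.2.1)) := by
  rw [← mate_eq_iff m.C.vside m.Sp₂ (κ.1, κ.2.1) (card_of_not_sp₂ m _)]
  constructor
  · intro h
    have h1 : (mate m.C.vside m.Sp₂ (κ.1, κ.2.1)).1 = κ.1 := congrArg (fun k : m.C.Cor => k.1) h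
    have h2 : (mate m.C.vside m.Sp₂ (κ.1, κ.2.1)).2 = κ.2.1 :=
      congrArg (fun k : m.C.Cor => k.2.1) h
    exact Prod.ext h1 h2
  · intro h
    show ((mate m.C.vside m.Sp₂ (κ.1, κ.2.1)).1, (mate m.C.vside m.Sp₂ (κ.1, κ.2.1)).2, κ.2.2) = κ
    rw [h]

theorem q3 (κ : m.C.Cor) : m.C.hgerm (m.quad.nu κ) = m.C.hgerm κ := by
  have h := f_mate m.C.hside m.Sp₁ (κ.1, κ.2.2)
  show (Sum.inl (m.C.hside ((mate m.C.hside m.Sp₁ (κ.1, κ.2.2)).1,
    (mate m.C.hside m.Sp₁ (κ.1, κ.2.2)).2)), !κ.2.1) = (Sum.inl (m.C.hside (κ.1, κ.2.2)), !κ.2.1)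
  rw [Prod.mk.eta, h]

theorem q4 (κ : m.C.Cor) : m.C.vgerm (m.quad.eta κ) = m.C.vgerm κ := by
  have h := f_mate m.C.vside m.Sp₂ (κ.1, κ.2.1)
  show (Sum.inr (m.C.vside ((mate m.C.vside m.Sp₂ (κ.1, κ.2.1)).1,
    (mate m.C.vside m.Sp₂ (κ.1, κ.2.1)).2)), !κ.2.2) = (Sum.inr (m.C.vside (κ.1, κ.2.1)), !κ.2.2)
  rw [Prod.mk.eta, h]

theorem q5 (κ κ' : m.C.Cor) (h : m.C.hgerm κ = m.C.hgerm κ')
    (hs : ¬ m.Sp₁ (m.C.hside (κ.1, κ.2.2))) : κ' = κ ∨ κ' = m.quad.nu κ := by
  have h1 : m.C.hside (κ.1, κ.2.2) = m.C.hside (κ'.1, κ'.2.2) := by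
    have := congrArg Prod.fst h
    exact Sum.inl_injective this
  have h2 : κ.2.1 = κ'.2.1 := by
    have := congrArg Prod.snd h
    exact Bool.not_inj this
  rcases eq_or_eq_mate m.C.hside m.Sp₁ (κ.1, κ.2.2) (card_of_not_sp₁ m _) hs h1.symm with h3 | h3
  · left
    obtain ⟨q, a, c⟩ := κ
    obtain ⟨q', a', c'⟩ := κ'
    simp only [Prod.mk.injEq] at h2 h3 ⊢
    exact ⟨h3.1, h2.symm, h3.2⟩
  · right
    show κ' = ((mate m.C.hside m.Sp₁ (κ.1, κ.2.2)).1, κ.2.1, (mate m.C.hside m.Sp₁ (κ.1, κ.2.2)).2)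
    rw [← h3, h2]

theorem q6 (κ κ' : m.C.Cor) (h : m.C.vgerm κ = m.C.vgerm κ')
    (hs : ¬ m.Sp₂ (m.C.vside (κ.1, κ.2.1))) : κ' = κ ∨ κ' = m.quad.eta κ := by
  have h1 : m.C.vside (κ.1, κ.2.1) = m.C.vside (κ'.1, κ'.2.1) := by
    have := congrArg Prod.fst h
    exact Sum.inr_injective this
  have h2 : κ.2.2 = κ'.2.2 := by
    have := congrArg Prod.snd h
    exact Bool.not_inj this
  rcases eq_or_eq_mate m.C.vside m.Sp₂ (κ.1, κ.2.1) (card_of_not_sp₂ m _) hs h1.symm with h3 | h3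
  · left
    obtain ⟨q, a, c⟩ := κ
    obtain ⟨q', a', c'⟩ := κ'
    simp only [Prod.mk.injEq] at h2 h3 ⊢
    exact ⟨h3.1, h3.2, h2.symm⟩
  · right
    show κ' = ((mate m.C.vside m.Sp₂ (κ.1, κ.2.1)).1, (mate m.C.vside m.Sp₂ (κ.1, κ.2.1)).2, κ.2.2)
    rw [← h3, h2]

theorem q7 (κ : m.C.Cor) : m.C.org (m.C.vgerm κ) = m.C.vert κ := by
  obtain ⟨q, a, c⟩ := κ
  cases a <;> cases c
  · exact (m.C.h1 q).symm
  · exact (m.C.h3 q).symm
  · exact (m.C.h2 q).symm
  · exact (m.C.h4 q).symm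

theorem q8 (κ : m.C.Cor) : m.C.vert (m.quad.nu κ) = m.C.vert κ := by
  unfold Cx.vert
  rw [q3]

theorem q9 (κ : m.C.Cor) : m.C.vert (m.quad.eta κ) = m.C.vert κ := by
  rw [← q7, ← q7, q4]

/-- exchange of the two flags of a corner -/
def swp {S : Type} (κ : S × Bool × Bool) : S × Bool × Bool := (κ.1, κ.2.2, κ.2.1)

theorem swp_swp {S : Type} (κ : S × Bool × Bool) : swp (swp κ) = κ := rfl

theorem T_nu (κ : m.C.Cor) : m.T.quad.nu (swp κ) = swp (m.quad.eta κ) := rfl

theorem T_eta (κ : m.C.Cor) : m.T.quad.eta (swp κ) = swp (m.quad.nu κ) := rfl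

theorem T_fa (κ : m.C.Cor) : m.T.quad.fa (swp κ) = swp (m.quad.fc κ) := rfl

theorem T_fc (κ : m.C.Cor) : m.T.quad.fc (swp κ) = swp (m.quad.fa κ) := rfl

theorem orb_swp {S : Type} {f g f' g' : S × Bool × Bool → S × Bool × Bool}
    (hf : ∀ κ, f' (swp κ) = swp (f κ)) (hg : ∀ κ, g' (swp κ) = swp (g κ))
    {κ κ' : S × Bool × Bool} (h : Orb f g κ κ') : Orb f' g' (swp κ) (swp κ') := by
  intro P h1 h2 h3
  exact h (fun x => P (swp x)) (fun x hx => by rw [← hf]; exact h1 _ hx)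
    (fun x hx => by rw [← hg]; exact h2 _ hx) h3

theorem q10 (h : m.T.quad.Strips) : m.quad.T.Strips := by
  intro κ
  obtain ⟨κ', h1, h2⟩ := h (swp κ)
  refine ⟨swp κ', ?_, ?_⟩
  · exact orb_swp (S := m.C.S) (f := m.T.quad.nu) (g := m.T.quad.fc) (f' := m.quad.T.nu)
      (g' := m.quad.T.fc) (fun _ => rfl) (fun _ => rfl) h1
  · exact congrArg (swp (S := m.C.S)) h2

theorem q11 (h : m.T.quad.Forest) : m.quad.T.Forest := by
  intro κ₀
  obtain ⟨c, h1, h2, h3⟩ := h (swp κ₀)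
  refine ⟨fun κ => c (swp κ), fun κ => h1 (swp κ), fun κ => h2 (swp κ), fun κ => ?_⟩
  have h4 := h3 (swp κ)
  have hinj : ∀ x y : m.C.Cor, swp x = swp y ↔ x = y := fun x y =>
    ⟨fun hxy => by rw [← swp_swp x, hxy, swp_swp], fun hxy => by rw [hxy]⟩
  refine h4.trans ?_
  refine or_congr (hinj κ κ₀) (or_congr ?_ (or_congr ?_ ?_))
  · exact hinj κ (m.quad.fa κ₀)
  · exact hinj κ (m.quad.nu κ₀)
  · exact hinj κ (m.quad.fa (m.quad.nu κ₀))

/-- the transposed rim data -/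
noncomputable def rimT (D : m.quad.RimData) : m.T.quad.RimData where
  R := D.R
  e := D.e.trans
    { toFun := fun x => ⟨(swp x.1.1, !x.1.2), by
        obtain ⟨⟨κ, b⟩, hx⟩ := x
        cases b
        · exact congrArg (swp (S := m.C.S)) hx
        · exact congrArg (swp (S := m.C.S)) hx⟩
      invFun := fun x => ⟨(swp x.1.1, !x.1.2), by
        obtain ⟨⟨κ, b⟩, hx⟩ := x
        cases b
        · exact congrArg (swp (S := m.C.S)) hx
        · exact congrArg (swp (S := m.C.S)) hx⟩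
      left_inv := fun x => by
        obtain ⟨⟨κ, b⟩, hx⟩ := x
        cases b <;> rfl
      right_inv := fun x => by
        obtain ⟨⟨κ, b⟩, hx⟩ := x
        cases b <;> rfl }
  AV := D.AH
  AH := D.AV
  φ_false := fun x hx => by
    have h1 : (D.e x).1.2 = true := by
      have : (!(D.e x).1.2) = false := hx
      simpa using this
    have h2 := D.φ_true x h1
    show (swp (D.e (D.R.φ x)).1.1, !(D.e (D.R.φ x)).1.2) = _
    rw [h2]
    rfl
  φ_true := fun x hx => by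
    have h1 : (D.e x).1.2 = false := by
      have : (!(D.e x).1.2) = true := hx
      simpa using this
    have h2 := D.φ_false x h1
    show (swp (D.e (D.R.φ x)).1.1, !(D.e (D.R.φ x)).1.2) = _
    rw [h2]
    rfl
  σ_orb := fun x => by
    have h := D.σ_orb x
    have h' : Orb m.quad.eta m.quad.nu (D.e x).1.1 (D.e (D.R.σ x)).1.1 :=
      fun P h1 h2 h3 => h P h2 h1 h3
    exact orb_swp (S := m.C.S) (f := m.quad.eta) (g := m.quad.nu) (f' := m.T.quad.nu)
      (g' := m.T.quad.eta) (fun _ => rfl) (fun _ => rfl) h'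
  σ_uni := fun x y h => by
    apply D.σ_uni x y
    have h1 := orb_swp (S := m.C.S) (f := m.T.quad.nu) (g := m.T.quad.eta) (f' := m.quad.eta)
      (g' := m.quad.nu) (fun _ => rfl) (fun _ => rfl) h
    exact fun P h2 h3 h4 => h1 P h3 h2 h4
  AV_false := fun x hx => by
    have h1 : (D.e x).1.2 = true := by
      have : (!(D.e x).1.2) = false := hx
      simpa using this
    obtain ⟨h2, h3⟩ := D.AH_true x h1
    refine ⟨?_, ?_⟩
    · show (!(D.e (D.AH.A x)).1.2) = false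
      rw [h2]
      rfl
    · exact orb_swp (S := m.C.S) (f := m.quad.eta) (g := m.quad.fa) (f' := m.T.quad.nu)
        (g' := m.T.quad.fc) (fun _ => rfl) (fun _ => rfl) h3
  AV_uni := fun x y hx hy h => by
    have h1 : (D.e x).1.2 = true := by
      have : (!(D.e x).1.2) = false := hx
      simpa using this
    have h2 : (D.e y).1.2 = true := by
      have : (!(D.e y).1.2) = false := hy
      simpa using this
    apply D.AH_uni x y h1 h2
    exact orb_swp (S := m.C.S) (f := m.T.quad.nu) (g := m.T.quad.fc) (f' := m.quad.eta)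
        (g' := m.quad.fa) (fun _ => rfl) (fun _ => rfl) h
  AV_true := fun x hx => by
    have h1 : (D.e x).1.2 = false := by
      have : (!(D.e x).1.2) = true := hx
      simpa using this
    exact D.AH_false x h1
  AH_true := fun x hx => by
    have h1 : (D.e x).1.2 = false := by
      have : (!(D.e x).1.2) = true := hx
      simpa using this
    obtain ⟨h2, h3⟩ := D.AV_false x h1
    refine ⟨?_, ?_⟩
    · show (!(D.e (D.AV.A x)).1.2) = true
      rw [h2]
      rfl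
    · exact orb_swp (S := m.C.S) (f := m.quad.nu) (g := m.quad.fc) (f' := m.T.quad.eta)
        (g' := m.T.quad.fa) (fun _ => rfl) (fun _ => rfl) h3
  AH_uni := fun x y hx hy h => by
    have h1 : (D.e x).1.2 = false := by
      have : (!(D.e x).1.2) = true := hx
      simpa using this
    have h2 : (D.e y).1.2 = false := by
      have : (!(D.e y).1.2) = true := hy
      simpa using this
    apply D.AV_uni x y h1 h2
    exact orb_swp (S := m.C.S) (f := m.T.quad.eta) (g := m.T.quad.fa) (f' := m.quad.nu)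
        (g' := m.quad.fc) (fun _ => rfl) (fun _ => rfl) h
  AH_false := fun x hx => by
    have h1 : (D.e x).1.2 = true := by
      have : (!(D.e x).1.2) = false := hx
      simpa using this
    exact D.AV_true x h1

end QBasicAux

open QBasicAux

theorem quadBasic : QuadBasicStatement := by
  intro n X Y m
  refine ⟨q1 m, q2 m, q3 m, q4 m, q5 m, q6 m, q7 m, q8 m, q9 m, q10 m, q11 m, fun D => ?_⟩
  exact ⟨rimT m D, Equiv.refl _, fun _ => rfl, fun _ => rfl, fun _ => rfl, fun _ => rfl,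
    fun _ => rfl⟩

end Pool.Agent.Helper35_WH
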