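import Pool.Agent.Helper20_WH.Germ

/-!
# The vertical graph of the surface of a model is a forest (module QFOREST)
-/

namespace Pool.Agent.Helper35_WH

open FreeGroup GermAux

namespace QForestAux

/-- A partial injection of a finite set extends to a permutation. -/
theorem exists_perm {Ω : Type} [Finite Ω] (R : Ω → Ω → Prop) (h1 : ∀ a b b', R a b → R a b' → b = b')
    (h2 : ∀ a a' b, R a b → R a' b → a = a') : ∃ π : Equiv.Perm Ω, ∀ a b, R a b → π a = b := by
  classical
  have := Fintype.ofFinite Ω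
  let p : Ω → Prop := fun a => ∃ b, R a b
  let q : Ω → Prop := fun b => ∃ a, R a b
  let e : {a // p a} ≃ {b // q b} :=
    { toFun := fun a => ⟨a.2.choose, a.1, a.2.choose_spec⟩
      invFun := fun b => ⟨b.2.choose, b.1, b.2.choose_spec⟩
      left_inv := fun a => by
        apply Subtype.ext
        have h3 : ∃ a', R a' a.2.choose := ⟨a.1, a.2.choose_spec⟩
        show h3.choose = a.1
        exact h2 _ _ _ h3.choose_spec a.2.choose_spec
      right_inv := fun b => by
        apply Subtype.ext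
        have h3 : ∃ b', R b.2.choose b' := ⟨b.1, b.2.choose_spec⟩
        show h3.choose = b.1
        exact h1 _ _ _ h3.choose_spec b.2.choose_spec }
  refine ⟨e.extendSubtype, fun a b hab => ?_⟩
  have hp : p a := ⟨b, hab⟩
  rw [Equiv.extendSubtype_apply_of_mem e a hp]
  exact h1 _ _ _ hp.choose_spec hab

/-- the twisted permutation -/
def twist {Ω : Type} (π : Equiv.Perm Ω) (δ : Ω → Bool) : Equiv.Perm (Ω × Bool) where
  toFun x := (π x.1, xor x.2 (δ x.1))
  invFun x := (π.symm x.1, xor x.2 (δ (π.symm x.1)))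
  left_inv x := by simp
  right_inv x := by simp

/-- the flip -/
def flp (Ω : Type) : Equiv.Perm (Ω × Bool) where
  toFun x := (x.1, !x.2)
  invFun x := (x.1, !x.2)
  left_inv x := by simp
  right_inv x := by simp

theorem twist_flp {Ω : Type} (π : Equiv.Perm Ω) (δ : Ω → Bool) :
    Commute (twist π δ) (flp Ω) := by
  ext x
  · rfl
  · show xor (!x.2) (δ x.1) = !(xor x.2 (δ x.1))
    cases x.2 <;> simp

variable {n : ℕ} {X Y : List (Lt n)} (m : Model n X Y)

/-- the vertical edge of a corner -/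
def vs (κ : m.C.Cor) : m.C.B := m.C.vside (κ.1, κ.2.1)

theorem vert_false (q7 : ∀ κ : m.C.Cor, m.C.org (m.C.vgerm κ) = m.C.vert κ) {κ : m.C.Cor}
    (h : κ.2.2 = false) : m.C.vert κ = m.C.s₂ (vs m κ) := by
  rw [← q7]
  show (if (!κ.2.2) = true then _ else _) = _
  rw [h]
  rfl

theorem vert_true (q7 : ∀ κ : m.C.Cor, m.C.org (m.C.vgerm κ) = m.C.vert κ) {κ : m.C.Cor}
    (h : κ.2.2 = true) : m.C.vert κ = m.C.t₂ (vs m κ) := by
  rw [← q7]
  show (if (!κ.2.2) = true then _ else _) = _
  rw [h]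
  rfl

end QForestAux

open QForestAux

theorem quadForest (hq : QuadBasicStatement) : QuadForestStatement := by
  classical
  intro n X Y m hP3
  obtain ⟨q1, q2, q3, q4, q5, q6, q7, q8, q9, -, -, -⟩ := hq n X Y m
  have hvert : ∀ κ κ' : m.C.Cor, Orb m.quad.nu m.quad.eta κ κ' → m.C.vert κ' = m.C.vert κ := by
    intro κ κ' h
    exact h (fun x => m.C.vert x = m.C.vert κ) (fun x hx => (q8 x).trans hx)
      (fun x hx => (q9 x).trans hx) rfl
  have hvseta : ∀ κ : m.C.Cor, vs m (m.quad.eta κ) = vs m κ := by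
    intro κ
    exact Sum.inr_injective (congrArg Prod.fst (q4 κ))
  -- corners of one orbit with the same vertical letter
  have hA : ∀ κ κ' : m.C.Cor, Orb m.quad.nu m.quad.eta κ κ' → κ'.2.2 = κ.2.2 →
      m.C.l₂ (vs m κ') = m.C.l₂ (vs m κ) → κ' = κ ∨ κ' = m.quad.eta κ := by
    intro κ κ' h hc hl
    have hv := hvert κ κ' h
    have hvs : vs m κ' = vs m κ := by
      apply m.inj₂ _ _ hl
      by_cases hb : κ.2.2 = false
      · rw [vert_false m q7 hb, vert_false m q7 (hc.trans hb)] at hv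
        exact hv
      · have hb : κ.2.2 = true := by simpa using hb
        rw [vert_true m q7 hb, vert_true m q7 (hc.trans hb)] at hv
        apply m.pos_inj
        have e1 := m.pos₂ (vs m κ)
        have e2 := m.pos₂ (vs m κ')
        rw [hv, e1, hl] at e2
        exact (mul_right_cancel e2).symm
    have hg : m.C.vgerm κ = m.C.vgerm κ' := by
      show ((.inr (vs m κ), !κ.2.2) : m.C.Dir) = (.inr (vs m κ'), !κ'.2.2)
      rw [hvs, hc]
    by_cases hs : m.Sp₂ (m.C.vside (κ.1, κ.2.1))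
    · left
      have hs' : m.Sp₂ (m.C.vside (κ'.1, κ'.2.1)) := by
        have : m.C.vside (κ'.1, κ'.2.1) = m.C.vside (κ.1, κ.2.1) := hvs
        rw [this]
        exact hs
      exact (hP3 κ κ' h ((q2 κ).2 hs) ((q2 κ').2 hs') hg).symm
    · exact q6 κ κ' hg hs
  -- the orbits
  let r : Setoid m.C.Cor :=
    { r := Orb m.quad.nu m.quad.eta
      iseqv := ⟨orb_refl _ _, fun h => orb_symm m.quad.nunu m.quad.etaeta h,
        fun h h' => orb_trans h h'⟩ }
  have hmk : ∀ κ κ' : m.C.Cor, (Quotient.mk r κ = Quotient.mk r κ') ↔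
      Orb m.quad.nu m.quad.eta κ κ' := fun κ κ' => ⟨fun h => Quotient.exact h, fun h => Quotient.sound h⟩
  have : Finite (Quotient r) := Quotient.finite r
  have hetafc : ∀ κ : m.C.Cor, m.quad.fc (m.quad.eta κ) = m.quad.eta (m.quad.fc κ) :=
    fun κ => (m.quad.etafc κ).symm
  -- the permutations
  have hπ : ∀ y : Fin n, ∃ π : Equiv.Perm (Quotient r), ∀ a b,
      (∃ κ : m.C.Cor, Quotient.mk r κ = a ∧ Quotient.mk r (m.quad.fc κ) = b ∧ κ.2.2 = false ∧
        m.C.l₂ (vs m κ) = y) → π a = b := by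
    intro y
    apply exists_perm
    · rintro a b b' ⟨κ, h1, h2, h3, h4⟩ ⟨κ', h1', h2', h3', h4'⟩
      rw [← h1', eq_comm, hmk] at h1
      have h5 := hA κ' κ h1 (h3.trans h3'.symm) (h4.trans h4'.symm)
      rw [← h2, ← h2', hmk]
      rcases h5 with rfl | rfl
      · exact orb_refl _ _ _
      · rw [hetafc]
        exact orb_symm m.quad.nunu m.quad.etaeta (orb_g (orb_refl _ _ _))
    · rintro a a' b ⟨κ, h1, h2, h3, h4⟩ ⟨κ', h1', h2', h3', h4'⟩
      rw [← h2', hmk] at h2
      have h5 := hA (m.quad.fc κ) (m.quad.fc κ') h2 (by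
        show (!κ'.2.2) = !κ.2.2
        rw [h3, h3']) (h4'.trans h4.symm)
      rw [← h1, ← h1', hmk]
      rcases h5 with h5 | h5
      · have : κ' = κ := by
          rw [← m.quad.fcfc κ', h5, m.quad.fcfc]
        rw [this]
        exact orb_refl _ _ _
      · rw [← hetafc] at h5
        have : κ' = m.quad.eta κ := by
          rw [← m.quad.fcfc κ', h5, m.quad.fcfc]
        rw [this]
        exact orb_g (orb_refl _ _ _)
  choose π hπ using hπ
  -- colouring for a corner with `κ₀.2.2 = false`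
  have main : ∀ κ₀ : m.C.Cor, κ₀.2.2 = false → ∃ c : m.C.Cor → Bool,
      (∀ κ, c (m.quad.nu κ) = c κ) ∧ (∀ κ, c (m.quad.eta κ) = c κ) ∧
      ∀ κ, κ.2.2 = false → (c (m.quad.fc κ) ≠ c κ ↔ (κ = κ₀ ∨ κ = m.quad.eta κ₀)) := by
    intro κ₀ hκ₀
    set y₀ := m.C.l₂ (vs m κ₀) with hy₀
    let tw : Fin n → Equiv.Perm (Quotient r × Bool) := fun y =>
      twist (π y) (fun O => decide (O = Quotient.mk r κ₀ ∧ y = y₀))
    let Φ : FG n →* Equiv.Perm (Quotient r × Bool) := FreeGroup.lift (fun y => (tw y)⁻¹)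
    have hflip : ∀ g : FG n, Commute (Φ g) (flp (Quotient r)) := by
      intro g
      induction g using FreeGroup.induction_on with
      | C1 => rw [_root_.map_one]; exact Commute.one_left _
      | of y =>
        have e : Φ (of y) = (tw y)⁻¹ := FreeGroup.lift_apply_of
        rw [e]
        exact (twist_flp _ _).inv_left
      | inv_of y ih => rw [_root_.map_inv]; exact ih.inv_left
      | mul a b ha hb => rw [_root_.map_mul]; exact ha.mul_left hb
    have hflip' : ∀ (g : FG n) (O : Quotient r) (b : Bool),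
        (Φ g (O, !b)).2 = !(Φ g (O, b)).2 := by
      intro g O b
      have h := congrArg (fun e : Equiv.Perm (Quotient r × Bool) => (e (O, b)).2) (hflip g).eq
      exact h
    let c : m.C.Cor → Bool := fun κ =>
      (Φ (m.eY.symm (m.pos (m.C.vert κ))) (Quotient.mk r κ, false)).2
    have hcorb : ∀ κ κ', Orb m.quad.nu m.quad.eta κ κ' → c κ' = c κ := by
      intro κ κ' h
      have e1 := hvert κ κ' h
      have e2 := (hmk κ κ').2 h
      show (Φ (m.eY.symm (m.pos (m.C.vert κ'))) (Quotient.mk r κ', false)).2 =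
        (Φ (m.eY.symm (m.pos (m.C.vert κ))) (Quotient.mk r κ, false)).2
      rw [e1, e2]
    refine ⟨c, fun κ => hcorb _ _ (orb_f (orb_refl _ _ _)),
      fun κ => hcorb _ _ (orb_g (orb_refl _ _ _)), fun κ hκ => ?_⟩
    set y := m.C.l₂ (vs m κ) with hy
    have e1 : m.C.vert κ = m.C.s₂ (vs m κ) := vert_false m q7 hκ
    have e2 : m.C.vert (m.quad.fc κ) = m.C.t₂ (vs m κ) := by
      have : (m.quad.fc κ).2.2 = true := by
        show (!κ.2.2) = true
        rw [hκ]
        rfl
      exact vert_true m q7 this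
    have e3 : m.eY.symm (m.pos (m.C.vert (m.quad.fc κ))) =
        m.eY.symm (m.pos (m.C.vert κ)) * of y := by
      rw [e2, e1, m.pos₂, _root_.map_mul, MulEquiv.symm_apply_apply]
    have e4 : π y (Quotient.mk r κ) = Quotient.mk r (m.quad.fc κ) :=
      hπ y _ _ ⟨κ, rfl, rfl, hκ, rfl⟩
    set δ : Bool := decide (Quotient.mk r κ = Quotient.mk r κ₀ ∧ y = y₀) with hδ
    have e5 : (tw y)⁻¹ (Quotient.mk r (m.quad.fc κ), false) = (Quotient.mk r κ, δ) := by
      rw [Equiv.Perm.inv_eq_iff_eq]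
      show (Quotient.mk r (m.quad.fc κ), false) = (π y (Quotient.mk r κ), xor δ δ)
      rw [e4, Bool.xor_self]
    have e6 : c (m.quad.fc κ) =
        (Φ (m.eY.symm (m.pos (m.C.vert κ))) (Quotient.mk r κ, δ)).2 := by
      show (Φ (m.eY.symm (m.pos (m.C.vert (m.quad.fc κ)))) (Quotient.mk r (m.quad.fc κ), false)).2 = _
      rw [e3, _root_.map_mul]
      have e : Φ (of y) = (tw y)⁻¹ := FreeGroup.lift_apply_of
      rw [e, Equiv.Perm.mul_apply, e5]
    have e7 : c (m.quad.fc κ) ≠ c κ ↔ δ = true := by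
      rw [e6]
      cases δ
      · simp [c]
      · have := hflip' (m.eY.symm (m.pos (m.C.vert κ))) (Quotient.mk r κ) false
        rw [Bool.not_false] at this
        rw [this]
        simp [c]
    rw [e7, hδ, decide_eq_true_iff, hmk]
    constructor
    · rintro ⟨h1, h2⟩
      exact hA κ₀ κ (orb_symm m.quad.nunu m.quad.etaeta h1) (hκ.trans hκ₀.symm) h2
    · rintro (rfl | rfl)
      · exact ⟨orb_refl _ _ _, rfl⟩
      · refine ⟨orb_symm m.quad.nunu m.quad.etaeta (orb_g (orb_refl _ _ _)), ?_⟩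
        rw [hy, hvseta]
  -- all corners
  have hfc22 : ∀ κ : m.C.Cor, (m.quad.fc κ).2.2 = !κ.2.2 := fun _ => rfl
  have heta22 : ∀ κ : m.C.Cor, (m.quad.eta κ).2.2 = κ.2.2 := fun _ => rfl
  have main2 : ∀ κ₀ : m.C.Cor, κ₀.2.2 = false → ∃ c : m.C.Cor → Bool,
      (∀ κ, c (m.quad.nu κ) = c κ) ∧ (∀ κ, c (m.quad.eta κ) = c κ) ∧
      ∀ κ, c (m.quad.fc κ) ≠ c κ ↔ (κ = κ₀ ∨ κ = m.quad.fc κ₀ ∨ κ = m.quad.eta κ₀ ∨
        κ = m.quad.fc (m.quad.eta κ₀)) := by
    intro κ₀ hκ₀
    obtain ⟨c, h1, h2, h3⟩ := main κ₀ hκ₀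
    refine ⟨c, h1, h2, fun κ => ?_⟩
    by_cases hκ : κ.2.2 = false
    · rw [h3 κ hκ]
      constructor
      · rintro (h | h)
        · exact Or.inl h
        · exact Or.inr (Or.inr (Or.inl h))
      · rintro (h | h | h | h)
        · exact Or.inl h
        · exfalso
          rw [h, hfc22, hκ₀] at hκ
          simp at hκ
        · exact Or.inr h
        · exfalso
          rw [h, hfc22, heta22, hκ₀] at hκ
          simp at hκ
    · have hκ' : κ.2.2 = true := by simpa using hκ
      have h4 : (m.quad.fc κ).2.2 = false := by rw [hfc22, hκ']; rfl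
      have h5 := h3 (m.quad.fc κ) h4
      have h6 : m.quad.fc (m.quad.fc κ) = κ := m.quad.fcfc κ
      rw [h6] at h5
      rw [ne_comm, h5]
      have inj : ∀ a b : m.C.Cor, m.quad.fc a = b ↔ a = m.quad.fc b := by
        intro a b
        constructor
        · rintro rfl
          exact (m.quad.fcfc a).symm
        · rintro rfl
          exact m.quad.fcfc b
      rw [inj, inj]
      constructor
      · rintro (h | h)
        · exact Or.inr (Or.inl h)
        · exact Or.inr (Or.inr (Or.inr h))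
      · rintro (h | h | h | h)
        · exfalso
          rw [h, hκ₀] at hκ'
          simp at hκ'
        · exact Or.inl h
        · exfalso
          rw [h, heta22, hκ₀] at hκ'
          simp at hκ'
        · exact Or.inr h
  intro κ₀
  by_cases hκ₀ : κ₀.2.2 = false
  · exact main2 κ₀ hκ₀
  · have hκ₀' : κ₀.2.2 = true := by simpa using hκ₀
    have h4 : (m.quad.fc κ₀).2.2 = false := by
      show (!κ₀.2.2) = false
      rw [hκ₀']
      rfl
    obtain ⟨c, h1, h2, h3⟩ := main2 (m.quad.fc κ₀) h4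
    refine ⟨c, h1, h2, fun κ => ?_⟩
    refine (h3 κ).trans ?_
    have e1 : m.quad.fc (m.quad.fc κ₀) = κ₀ := m.quad.fcfc κ₀
    have e2 : m.quad.eta (m.quad.fc κ₀) = m.quad.fc (m.quad.eta κ₀) := m.quad.etafc κ₀
    have e3 : m.quad.fc (m.quad.fc (m.quad.eta κ₀)) = m.quad.eta κ₀ := m.quad.fcfc _
    rw [e1, e2, e3]
    constructor
    · rintro (h | h | h | h)
      · exact Or.inr (Or.inl h)
      · exact Or.inl h
      · exact Or.inr (Or.inr (Or.inr h))
      · exact Or.inr (Or.inr (Or.inl h))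
    · rintro (h | h | h | h)
      · exact Or.inr (Or.inl h)
      · exact Or.inl h
      · exact Or.inr (Or.inr (Or.inr h))
      · exact Or.inr (Or.inr (Or.inl h))

end Pool.Agent.Helper35_WH
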