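import Pool.Agent.Helper35_WH.Stmt2

/-!
# Vertical strips of the surface of a model end at the boundary (module STRIPS)
-/

namespace Pool.Agent.Helper35_WH

open FreeGroup

namespace StripsAux

theorem orb_refl {K : Type} (f g : K → K) (k : K) : Orb f g k k := fun _ _ _ h => h

theorem orb_f {K : Type} {f g : K → K} {k k' : K} (h : Orb f g k k') : Orb f g k (f k') :=
  fun P h1 h2 h3 => h1 _ (h P h1 h2 h3)

theorem orb_g {K : Type} {f g : K → K} {k k' : K} (h : Orb f g k k') : Orb f g k (g k') :=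
  fun P h1 h2 h3 => h2 _ (h P h1 h2 h3)

variable {n : ℕ} {X Y : List (Lt n)} (m : Model n X Y)

theorem l₁_hside (q : m.C.S) (c : Bool) : m.C.l₁ (m.C.hside (q, c)) = m.C.l₁ (m.C.bot q) := by
  cases c
  · rfl
  · exact (m.C.h5 q).symm

theorem sq_unique {q q₀ : m.C.S} {a : Bool} (h : m.C.vside (q, a) = m.C.vside (q₀, a))
    (hl : m.C.l₁ (m.C.bot q) = m.C.l₁ (m.C.bot q₀)) : q = q₀ := by
  cases a
  · have h1 : m.C.lef q = m.C.lef q₀ := h
    have h2 : m.C.bot q = m.C.bot q₀ := by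
      apply m.inj₁ _ _ hl
      rw [m.C.h1, m.C.h1, h1]
    exact m.injS _ _ h2 h1
  · have h1 : m.C.rig q = m.C.rig q₀ := h
    have h3 : m.C.s₁ (m.C.bot q) = m.C.s₁ (m.C.bot q₀) := by
      apply m.pos_inj
      have e1 := m.pos₁ (m.C.bot q)
      have e2 := m.pos₁ (m.C.bot q₀)
      rw [m.C.h2, h1] at e1
      rw [m.C.h2] at e2
      rw [e1, hl] at e2
      exact mul_left_cancel e2
    have h2 : m.C.bot q = m.C.bot q₀ := m.inj₁ _ _ hl h3
    have h4 : m.C.lef q = m.C.lef q₀ := by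
      apply m.inj₂
      · rw [m.C.h6, m.C.h6, h1]
      · rw [← m.C.h1, ← m.C.h1, h3]
    exact m.injS _ _ h2 h4

theorem col_change (hv : ∀ κ : m.C.Cor, m.C.org (m.C.vgerm κ) = m.C.vert κ)
    (c : m.C.V → Bool) (κ : m.C.Cor) :
    c (m.C.vert (m.quad.fc κ)) ≠ c (m.C.vert κ) ↔
      c (m.C.s₂ (m.C.vside (κ.1, κ.2.1))) ≠ c (m.C.t₂ (m.C.vside (κ.1, κ.2.1))) := by
  have e1 : m.C.vert κ = if !κ.2.2 then m.C.s₂ (m.C.vside (κ.1, κ.2.1))
      else m.C.t₂ (m.C.vside (κ.1, κ.2.1)) := (hv κ).symm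
  have e2 : m.C.vert (m.quad.fc κ) = if !!κ.2.2 then m.C.s₂ (m.C.vside (κ.1, κ.2.1))
      else m.C.t₂ (m.C.vside (κ.1, κ.2.1)) := (hv (m.quad.fc κ)).symm
  rw [e1, e2]
  cases κ.2.2
  · simp [eq_comm]
  · simp

end StripsAux

open StripsAux

theorem strips (hq : QuadBasicStatement) (h3 : ModelForestStatement) : StripsStatement := by
  classical
  intro n X Y m κ₀
  obtain ⟨-, -, q3, -, -, -, q7, q8, -, -, -, -⟩ := hq n X Y m
  by_contra hcon
  push Not at hcon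
  obtain ⟨c, hc⟩ := h3 n X Y m (m.C.vside (κ₀.1, κ₀.2.1))
  set O : Finset m.quad.K := Finset.univ.filter (fun κ => Orb m.quad.nu m.quad.fc κ₀ κ) with hO
  have memO : ∀ κ, κ ∈ O ↔ Orb m.quad.nu m.quad.fc κ₀ κ := fun κ => by simp [hO]
  -- invariants
  have hinv : ∀ κ : m.quad.K, Orb m.quad.nu m.quad.fc κ₀ κ →
      m.C.l₁ (m.C.bot κ.1) = m.C.l₁ (m.C.bot κ₀.1) ∧ κ.2.1 = κ₀.2.1 := by
    intro κ hκ
    apply hκ (fun κ => m.C.l₁ (m.C.bot κ.1) = m.C.l₁ (m.C.bot κ₀.1) ∧ κ.2.1 = κ₀.2.1)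
    · rintro x ⟨h1, h2⟩
      refine ⟨?_, h2⟩
      have h4 : m.C.hside ((m.quad.nu x).1, (m.quad.nu x).2.2) = m.C.hside (x.1, x.2.2) :=
        Sum.inl_injective (congrArg Prod.fst (q3 x))
      rw [← l₁_hside m (m.quad.nu x).1 (m.quad.nu x).2.2, h4, l₁_hside]
      exact h1
    · rintro x ⟨h1, h2⟩
      exact ⟨h1, h2⟩
    · exact ⟨rfl, rfl⟩
  set f : m.quad.K → ZMod 2 := fun κ => if c (m.C.vert κ) then 1 else 0 with hf
  have two : ∀ x : ZMod 2, x + x = 0 := by decide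
  have sum1 : ∑ κ ∈ O, f κ = 0 := by
    apply Finset.sum_involution (fun κ _ => m.quad.nu κ)
    · intro κ hκ
      simp only [hf]
      rw [q8]
      exact two _
    · intro κ hκ _
      exact hcon κ ((memO κ).1 hκ)
    · intro κ hκ
      rw [memO] at hκ ⊢
      exact orb_f hκ
    · intro κ hκ
      exact m.quad.nunu κ
  have hfc_ne : ∀ κ : m.quad.K, m.quad.fc κ ≠ κ := by
    intro κ h
    have := m.quad.colC_fc κ
    rw [h] at this
    revert this
    cases m.quad.colC κ <;> simp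
  have sum2 : ∑ κ ∈ (O.erase κ₀).erase (m.quad.fc κ₀), f κ = 0 := by
    apply Finset.sum_involution (fun κ _ => m.quad.fc κ)
    · intro κ hκ
      rw [Finset.mem_erase, Finset.mem_erase, memO] at hκ
      obtain ⟨k1, k2, k3⟩ := hκ
      have h4 : c (m.C.vert (m.quad.fc κ)) = c (m.C.vert κ) := by
        by_contra h5
        have h6 := (hc _).1 ((col_change m q7 c κ).1 h5)
        obtain ⟨h7, h8⟩ := hinv κ k3
        rw [h8] at h6
        have h9 := sq_unique m h6 h7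
        by_cases h10 : κ.2.2 = κ₀.2.2
        · exact k2 (Prod.ext h9 (Prod.ext h8 h10))
        · apply k1
          refine Prod.ext h9 (Prod.ext h8 ?_)
          show κ.2.2 = !κ₀.2.2
          revert h10
          cases κ.2.2 <;> cases κ₀.2.2 <;> simp
      simp only [hf, h4]
      exact two _
    · intro κ hκ _
      exact hfc_ne κ
    · intro κ hκ
      rw [Finset.mem_erase, Finset.mem_erase, memO] at hκ ⊢
      obtain ⟨k1, k2, k3⟩ := hκ
      refine ⟨fun h => k2 ?_, fun h => k1 ?_, orb_g k3⟩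
      · rw [← m.quad.fcfc κ, h, m.quad.fcfc]
      · rw [← h, m.quad.fcfc]
    · intro κ hκ
      exact m.quad.fcfc κ
  have m1 : κ₀ ∈ O := (memO κ₀).2 (orb_refl _ _ _)
  have m2 : m.quad.fc κ₀ ∈ O.erase κ₀ := by
    rw [Finset.mem_erase, memO]
    exact ⟨hfc_ne κ₀, orb_g (orb_refl _ _ _)⟩
  rw [← Finset.add_sum_erase _ _ m1, ← Finset.add_sum_erase _ _ m2, sum2, add_zero] at sum1
  have h5 : c (m.C.vert (m.quad.fc κ₀)) ≠ c (m.C.vert κ₀) :=
    (col_change m q7 c κ₀).2 ((hc _).2 rfl)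
  apply h5
  simp only [hf] at sum1
  revert sum1
  cases c (m.C.vert κ₀) <;> cases c (m.C.vert (m.quad.fc κ₀)) <;> decide

end Pool.Agent.Helper35_WH
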